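import Pool.Agent.Helper5.EQ.Fam

/-!
# Galois orbits of almost all special points of a family over a torus

Let `(G j, X j)`, `j ∈ ι`, be finitely many Shimura data with `G j` adjoint and simple over `ℚ`, `S j` a
connected component of the Shimura variety of `(G j, X j)` of some level, and `p` a prime number at which
the `G j` are split and the levels are hyperspecial. `Y j → S j` is the cover of level `T₀ j (ℤ_p)` at
`p`, where `T₀ j` is a split maximal torus over `ℚ_p` with the lattice `V j` of cocharacters, and `μ j`
its invariant probability measure. The lattice `V j = T₀ j (ℚ_p) / T₀ j (ℤ_p)` acts on `Y j` (after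
passing to a multiple, so that components go to components); this action is mixing (Howe and Moore,
strong approximation). These are the data of the structure `Factors`.

Let `T j ⊆ G j` be tori of special points which are split over `ℚ_p`. The special points of `S j` for
`T j` of given level prime to `p` form packets: a finite abelian group `G j` (a class group of `T j`)
acts simply transitively on a packet. After the choice of a base point the packet is the image of a map
`X j : G j → Y j`, such that the multiplication by the class `c j v` of `v(p)` corresponds to the action of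
the cocharacter `v`. The group of Galois acts on the packets in the product of the `S j` by a subgroup
`B` of the product of the groups `G j`, which by the reciprocity law is the image of a torus `R` (the
reflex torus) under a homomorphism with components `N j : R → T j`. The lattice `L` is the lattice of
the cocharacters of `R` (or a sublattice), and `recip j` is the map induced by `N j`.

A family of special points of the product is given by a torus `T'` with homomorphisms `T' → T j`, which
are arbitrary. Let `A` be a class group of `T'`, `φ : A → ∏ G j` the induced homomorphism, `L'` the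
lattice of the cocharacters of `T'` and `hom j : L' → V j` the maps induced by `T' → T j`. We consider
the special points with the coordinates `y j * φ α j`, `α ∈ A`, where `y` is a fixed point. Examples:
`T' = T ^ n` and all points of `S ^ n` for `T` (the known case), `T' = T × T` and the points
`(α, β, αβ)`, the points for a subtorus `T'` of `T`, the points of the fibres of `∏ G j → G'` for tori
`∏ T j → T''`.

We prove: if the group `B` moves all coordinates at `p`, then the Galois orbits of almost all points of
the family are equidistributed in the product if and only if for all classes `J` of coordinates with the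
same kernel in `R × T'` (up to isogeny) the family itself, i.e. the union of the Galois orbits of its
points, is equidistributed in the product over `J`. Nothing else is assumed about the size of the Galois
orbits, which may be much smaller than the packets. If the kernels are pairwise different, then the second
condition holds if the packets are equidistributed in the single factors (with no twists) and the
image of the parameters in each factor has bounded index. So in this case the Galois orbits of almost all
points of the families are equidistributed in the product.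
-/

set_option autoImplicit false

open MeasureTheory Filter Topology
open scoped ComplexConjugate BoundedContinuousFunction

namespace Pool.Agent.Results.MP_9177b7_ag.FamiliesOverTori

/-- The map `b` preserves the measure `μ` and is weakly mixing (tested on bounded continuous
functions). -/
structure WeaklyMixing {Y : Type} [TopologicalSpace Y] [MeasurableSpace Y] (μ : Measure Y)
    (b : Y → Y) : Prop where
  preserves : MeasurePreserving b μ μ
  mixing : ∀ f : Y →ᵇ ℂ, Tendsto (fun k : ℕ => (∑ l ∈ Finset.range k,
    ‖∫ y, f (b^[l] y) * conj (f y) ∂μ - (∫ y, f y ∂μ) * conj (∫ y, f y ∂μ)‖) / k) atTop (𝓝 0)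

/-- The covers `Y j` of the factors with their invariant measures and the actions of the lattices `V j` of
cocharacters. -/
structure Factors (ι : Type) where
  /-- the cover of the `j`-th factor -/
  Y : ι → Type
  [top : ∀ j, TopologicalSpace (Y j)]
  [t2 : ∀ j, T2Space (Y j)]
  [loc : ∀ j, LocallyCompactSpace (Y j)]
  [sec : ∀ j, SecondCountableTopology (Y j)]
  [meas : ∀ j, MeasurableSpace (Y j)]
  [borel : ∀ j, BorelSpace (Y j)]
  /-- the invariant probability measures -/
  μ : ∀ j, Measure (Y j)
  [prob : ∀ j, IsProbabilityMeasure (μ j)]
  /-- the cocharacters of the split maximal torus -/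
  V : ι → Type
  [add : ∀ j, AddCommGroup (V j)]
  [free : ∀ j, IsAddTorsionFree (V j)]
  /-- the action of the cocharacters by the translations by their values at (a power of) `p` -/
  act : ∀ j, V j → Y j → Y j
  act_zero : ∀ j, act j 0 = id
  continuous : ∀ j v, Continuous (act j v)
  mixing : ∀ j v, v ≠ 0 → WeaklyMixing (μ j) (act j v)

attribute [instance] Factors.top Factors.t2 Factors.loc Factors.sec Factors.meas Factors.borel
  Factors.prob Factors.add Factors.free

/-- The maps between the lattices of cocharacters induced by the homomorphisms `R → T j` (reciprocity)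
and `T' → T j` (the family). -/
structure Homs {ι : Type} (C : Factors ι) where
  /-- the cocharacters of the torus `R` which gives the action of the Galois group -/
  L : Type
  [addL : AddCommGroup L]
  /-- the map induced by `R → T j` -/
  recip : ∀ j, L →+ C.V j
  /-- the cocharacters of the torus `T'` of the parameters -/
  L' : Type
  [addL' : AddCommGroup L']
  /-- the map induced by `T' → T j` -/
  hom : ∀ j, L' →+ C.V j

attribute [instance] Homs.addL Homs.addL'

/-- A family of special points of the product of the `Y j`, with the action of the Galois group. -/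
structure Family {ι : Type} {C : Factors ι} (H : Homs C) where
  /-- the class group of the torus `T j` -/
  G : ι → Type
  [groupG : ∀ j, CommGroup (G j)]
  [finG : ∀ j, Fintype (G j)]
  /-- the class of the value at (a power of) `p` of a cocharacter -/
  c : ∀ j, C.V j → G j
  c_add : ∀ j v w, c j (v + w) = c j v * c j w
  /-- the packet in the `j`-th factor -/
  X : ∀ j, G j → C.Y j
  X_mul : ∀ j v g, X j (c j v * g) = C.act j v (X j g)
  /-- the image of the Galois group -/
  B : Subgroup (∀ j, G j)
  reciprocity : ∀ l : H.L, (fun j => c j (H.recip j l)) ∈ B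
  /-- the class group of the torus `T'` of the parameters -/
  A : Type
  [groupA : CommGroup A]
  [finA : Fintype A]
  /-- the homomorphism given by the homomorphisms `T' → T j` -/
  φ : A →* ∀ j, G j
  /-- the class of the value at (a power of) `p` of a cocharacter of `T'` -/
  d : H.L' → A
  φ_d : ∀ l j, φ (d l) j = c j (H.hom j l)
  /-- the base point -/
  y : ∀ j, G j

attribute [instance] Family.groupG Family.finG Family.groupA Family.finA

variable {ι : Type} {C : Factors ι} {H : Homs C}

/-- The `j`-th coordinate of the translate by the element `b` of the Galois group of the point of the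
family with the parameter `α`. -/
def Family.point (f : Family H) (b : f.B) (α : f.A) (j : ι) : C.Y j :=
  f.X j ((b : ∀ j, f.G j) j * (f.y j * f.φ α j))

/-- The average of `Φ` over the Galois orbit of the point with the parameter `α`. -/
noncomputable def Family.orbitMean (f : Family H) {S : ι → Type} (proj : ∀ j, C.Y j → S j)
    (Φ : (∀ j, S j) → ℝ) (α : f.A) : ℝ :=
  (∑ᶠ b : f.B, Φ fun j => proj j (f.point b α j)) / Nat.card f.B

/-- The Galois orbits of almost all points of the families `f i` are equidistributed in the product of
the `S j`. -/
def AlmostAllEquidistributed (f : ℕ → Family H) (S : ι → Type) [Fintype ι]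
    [∀ j, TopologicalSpace (S j)] [∀ j, MeasurableSpace (S j)] (proj : ∀ j, C.Y j → S j) : Prop :=
  ∀ Φ : (∀ j, S j) → ℝ, Continuous Φ → HasCompactSupport Φ → ∀ ε : ℝ, 0 < ε →
    Tendsto (fun i => ({α : (f i).A | ε < |(f i).orbitMean proj Φ α -
      ∫ s, Φ s ∂(Measure.pi fun j => (C.μ j).map (proj j))|}.ncard : ℝ) / Nat.card (f i).A)
      atTop (𝓝 0)

/-- The families `f i` (all points of the Galois orbits of their points) are equidistributed in the
product of the `Y j`, `j ∈ J`. -/
def FamilyEquidistributed (f : ℕ → Family H) (J : Set ι) [Fintype J] : Prop :=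
  ∀ Φ : (∀ j : J, C.Y j) → ℝ, Continuous Φ → HasCompactSupport Φ →
    Tendsto (fun i => (∑ᶠ ω : (f i).B × (f i).A, Φ fun j : J => (f i).point ω.1 ω.2 j) /
      Nat.card ((f i).B × (f i).A)) atTop (𝓝 (∫ y, Φ y ∂(Measure.pi fun j : J => C.μ j)))

/-- The homomorphisms from `R × T'` to `T j` and to `T k` have the same kernel up to isogeny. -/
def SameKernel (H : Homs C) (j k : ι) : Prop :=
  ∀ (l : H.L) (l' : H.L'), H.recip j l + H.hom j l' = 0 ↔ H.recip k l + H.hom k l' = 0

/-- `J` is a class of coordinates with the same kernel. -/
def IsClass (H : Homs C) (J : Set ι) : Prop := ∃ j, J = {k | SameKernel H j k}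

/-- The image in the class group of `T j` of the product of the Galois group and of the group of the
parameters. -/
def Family.image (f : Family H) (j : ι) : Subgroup (f.G j) :=
  (((Pi.evalMonoidHom f.G j).comp f.B.subtype).coprod ((Pi.evalMonoidHom f.G j).comp f.φ)).range

theorem Family.point_eq (f : Family H) (b : f.B) (α : f.A) (j : ι) :
    f.point b α j = f.X j ((((Pi.evalMonoidHom f.G j).comp f.B.subtype).coprod
      ((Pi.evalMonoidHom f.G j).comp f.φ)) (b, α) * f.y j) := by
  unfold Family.point
  congr 1
  rw [MonoidHom.coprod_apply]
  show _ = (b : ∀ j, f.G j) j * f.φ α j * f.y j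
  rw [mul_assoc, mul_comm (f.y j)]

/-- The family in the notation of the general theorems. -/
noncomputable def Family.toFa [Finite ι] (f : Family H) : Helper5.EQ.Fa C.Y where
  B := f.B
  gB := inferInstance
  fB := Fintype.ofFinite _
  A := f.A
  X := fun j ω => f.point ω.1 ω.2 j

theorem Family.point_mul (f : Family H) (l : H.L) (l' : H.L') (j : ι) (b : f.B) (α : f.A) :
    f.point (⟨_, f.reciprocity l⟩ * b) (f.d l' * α) j =
      C.act j (H.recip j l + H.hom j l') (f.point b α j) := by
  unfold Family.point
  rw [← f.X_mul, f.c_add]
  congr 1
  rw [Subgroup.coe_mul, Pi.mul_apply, map_mul, Pi.mul_apply, f.φ_d]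
  simp only [mul_comm, mul_left_comm, mul_assoc]

theorem Family.point_mul_left (f : Family H) (l : H.L) (j : ι) (b : f.B) (α : f.A) :
    f.point (⟨_, f.reciprocity l⟩ * b) α j = C.act j (H.recip j l) (f.point b α j) := by
  unfold Family.point
  rw [← f.X_mul]
  congr 1
  rw [Subgroup.coe_mul, Pi.mul_apply, mul_assoc]

theorem Family.toFa_mul [Finite ι] (f : Family H) (l : H.L) (l' : H.L') :
    ∃ γ : f.toFa.B × f.toFa.A, ∀ j ω, f.toFa.X j (γ * ω) =
      C.act j (H.recip j l + H.hom j l') (f.toFa.X j ω) :=
  ⟨((⟨_, f.reciprocity l⟩ : f.B), f.d l'), fun j ω => f.point_mul l l' j ω.1 ω.2⟩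

theorem Family.toFa_mul_left [Finite ι] (f : Family H) (l : H.L) :
    ∃ β : f.toFa.B, ∀ j ω, f.toFa.X j ((β, 1) * ω) = C.act j (H.recip j l) (f.toFa.X j ω) := by
  have h : ∀ j (ω : f.B × f.A), f.point (⟨_, f.reciprocity l⟩ * ω.1) (1 * ω.2) j =
      C.act j (H.recip j l) (f.point ω.1 ω.2 j) := fun j ω => by
    rw [one_mul]
    exact f.point_mul_left l j ω.1 ω.2
  exact ⟨(⟨_, f.reciprocity l⟩ : f.B), h⟩

theorem hpart [Fintype ι] (f : ℕ → Family H) (J : Set ι) [DecidablePred (· ∈ J)] [Fintype J] :
    FamilyEquidistributed f J ↔
      Helper5.EQ.Joint atTop C.μ (fun i => (f i).toFa.orb) (Finset.univ.filter (· ∈ J)) := by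
  refine Iff.trans ?_ ((Helper5.EQ.equi_iff_joint (F := atTop)
    (μ := fun j : J => C.μ j) (s := fun i => ((f i).toFa.orb).restrict J)).trans
      Helper5.EQ.joint_restrict)
  unfold FamilyEquidistributed
  refine forall_congr' fun Φ => forall_congr' fun _ => forall_congr' fun _ => ?_
  refine tendsto_congr fun i => ?_
  exact ((f i).toFa.integral_eq (fun ω => Φ fun j : J => (f i).point ω.1 ω.2 j)).symm

open scoped Classical in
/-- **Almost all special points of a family over a torus.** Suppose that the maps `recip j` are
not zero. Let `f i` be a sequence of families of special points.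

1. The Galois orbits of almost all points of the families are equidistributed in the product of the
covers `Y j` if and only if for all classes `J` of coordinates with the same kernel the families are
equidistributed in the product of the `Y j`, `j ∈ J`.

2. In this case the Galois orbits of almost all points are equidistributed in the product of the `S j`,
for all continuous maps `Y j → S j`.

3. If the kernels of the coordinates are pairwise different, then this is the case if the packets are
equidistributed in each single factor and the images of the parameters and of the Galois group in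
the groups of the packets have bounded index. -/
theorem result [Fintype ι] (hH : ∀ j, H.recip j ≠ 0) (f : ℕ → Family H) :
    ((∀ J : Set ι, IsClass H J → FamilyEquidistributed f J) ↔
      AlmostAllEquidistributed f C.Y (fun _ y => y)) ∧
    ((∀ J : Set ι, IsClass H J → FamilyEquidistributed f J) →
      ∀ (S : ι → Type) [∀ j, TopologicalSpace (S j)] [∀ j, T2Space (S j)]
        [∀ j, LocallyCompactSpace (S j)] [∀ j, SecondCountableTopology (S j)]
        [∀ j, MeasurableSpace (S j)] [∀ j, BorelSpace (S j)] (proj : ∀ j, C.Y j → S j),
        (∀ j, Continuous (proj j)) → AlmostAllEquidistributed f S proj) ∧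
    ((∀ j k, j ≠ k → ¬ SameKernel H j k) →
      (∀ j (φ : C.Y j → ℝ), Continuous φ → HasCompactSupport φ →
        Tendsto (fun i => (∑ g, φ ((f i).X j g)) / Nat.card ((f i).G j)) atTop
          (𝓝 (∫ y, φ y ∂(C.μ j)))) →
      (∃ M : ℕ, ∀ i j, ((f i).image j).index ≤ M) →
      ∀ J : Set ι, IsClass H J → FamilyEquidistributed f J) := by
  have hsymm : ∀ j k, SameKernel H j k → SameKernel H k j := fun j k h l l' => (h l l').symm
  have htrans : ∀ j k m, SameKernel H j k → SameKernel H k m → SameKernel H j m :=
    fun j k m h h' l l' => (h l l').trans (h' l l')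
  have hmixing : ∀ j v, v ≠ 0 → MeasurePreserving (C.act j v) (C.μ j) (C.μ j) ∧
      Pool.Agent.Q12.CM.WeakMix (C.μ j) (C.act j v) := fun j v hv =>
    ⟨(C.mixing j v hv).preserves, (C.mixing j v hv).mixing⟩
  let blk : ι → Set ι := fun j => {k | SameKernel H j k}
  have hblk : ∀ j k, blk j = blk k ↔ SameKernel H j k := by
    intro j k
    constructor
    · intro h
      have h2 : k ∈ blk k := fun l l' => Iff.rfl
      rw [← h] at h2
      exact h2
    · intro h
      ext m
      exact ⟨fun h' => htrans _ _ _ (hsymm _ _ h) h', fun h' => htrans _ _ _ h h'⟩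
  -- the equidistribution of the families in the product
  have hjoint : (∀ J : Set ι, IsClass H J → FamilyEquidistributed f J) →
      Helper5.EQ.Joint atTop C.μ (fun i => (f i).toFa.orb) Finset.univ := by
    intro h1
    let Θ : ι → ι → H.L × H.L' := fun j k =>
      if hθ : ∃ θ : H.L × H.L', H.recip j θ.1 + H.hom j θ.2 ≠ 0 ∧
        H.recip k θ.1 + H.hom k θ.2 = 0 then hθ.choose else 0
    let bmap : ι × ι → ∀ j, C.Y j → C.Y j := fun q l =>
      C.act l (H.recip l (Θ q.1 q.2).1 + H.hom l (Θ q.1 q.2).2)
    refine Helper5.EQ.joint_blocks (F := atTop) blk ?_ (Set.finite_range bmap) ?_ ?_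
    · intro c
      by_cases hc : ∃ j, blk j = c
      · obtain ⟨j, rfl⟩ := hc
        have e1 : Finset.univ.filter (fun j' => blk j' = blk j) =
            Finset.univ.filter (fun j' => j' ∈ blk j) := by
          refine Finset.filter_congr fun j' _ => ?_
          rw [hblk]
          exact ⟨fun h => hsymm _ _ h, fun h => hsymm _ _ h⟩
        rw [e1]
        exact (hpart f (blk j)).1 (h1 (blk j) ⟨j, rfl⟩)
      · have e1 : Finset.univ.filter (fun j' => blk j' = c) = ∅ :=
          Finset.filter_false_of_mem fun j _ h => hc ⟨j, h⟩
        rw [e1]
        intro f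
        simp
    · rintro _ ⟨q, rfl⟩ j
      exact C.continuous j _
    · refine Eventually.of_forall fun i c d hc hd hcd => ?_
      rw [Finset.mem_image] at hc hd
      obtain ⟨j, -, rfl⟩ := hc
      obtain ⟨k, -, rfl⟩ := hd
      have hsep : ∀ j k : ι, (∃ θ : H.L × H.L', H.recip j θ.1 + H.hom j θ.2 ≠ 0 ∧
          H.recip k θ.1 + H.hom k θ.2 = 0) →
          (∃ t, Helper5.EQ.Sym ((f i).toFa.orb) Finset.univ (bmap (j, k)) t) ∧
          Helper5.EQ.SepBlocks C.μ (bmap (j, k))
            (Finset.univ.filter (fun l => blk l = blk j))
            (Finset.univ.filter (fun l => blk l = blk k)) := by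
        intro j k hθ
        have hΘ : Θ j k = hθ.choose := dif_pos hθ
        have hspec := hθ.choose_spec
        rw [← hΘ] at hspec
        obtain ⟨γ, hγ⟩ := (f i).toFa_mul (Θ j k).1 (Θ j k).2
        refine ⟨⟨_, (f i).toFa.sym γ (fun l _ ω => hγ l ω)⟩, fun l hl => ?_, fun l hl => ?_⟩
        · rw [Finset.mem_filter, hblk] at hl
          show C.act l _ = id
          rw [(hl.2 _ _).2 hspec.2, C.act_zero]
        · rw [Finset.mem_filter, hblk] at hl
          have h3 : H.recip l (Θ j k).1 + H.hom l (Θ j k).2 ≠ 0 :=
            fun h => hspec.1 ((hl.2 _ _).1 h)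
          exact hmixing l _ h3
      have hne : ¬ SameKernel H j k := fun h => hcd ((hblk j k).2 h)
      unfold SameKernel at hne
      push Not at hne
      obtain ⟨l, l', ⟨h2, h3⟩ | ⟨h2, h3⟩⟩ := hne
      · have := hsep k j ⟨(l, l'), h3, h2⟩
        exact ⟨_, ⟨_, rfl⟩, this.1, Or.inr this.2⟩
      · have := hsep j k ⟨(l, l'), h2, h3⟩
        exact ⟨_, ⟨_, rfl⟩, this.1, Or.inl this.2⟩
  -- almost all points
  obtain ⟨l0, hl0⟩ := Helper5.EQ.exists_all_ne H.recip Finset.univ fun j _ => hH j
  have hall : (∀ J : Set ι, IsClass H J → FamilyEquidistributed f J) →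
      ∀ (S : ι → Type) [∀ j, TopologicalSpace (S j)] [∀ j, T2Space (S j)]
        [∀ j, LocallyCompactSpace (S j)] [∀ j, SecondCountableTopology (S j)]
        [∀ j, MeasurableSpace (S j)] [∀ j, BorelSpace (S j)] (proj : ∀ j, C.Y j → S j),
        (∀ j, Continuous (proj j)) → AlmostAllEquidistributed f S proj := by
    intro h1 S _ _ _ _ _ _ proj hproj Φ hc hs ε hε
    exact Helper5.EQ.Fa.almost_all' (F := atTop) (s := fun i => (f i).toFa)
      (b := fun j => C.act j (H.recip j l0))
      (fun j => C.continuous j _) (fun j => (hmixing j _ (hl0 j (Finset.mem_univ j))).1)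
      (fun j => (hmixing j _ (hl0 j (Finset.mem_univ j))).2) (hjoint h1)
      (fun i => (f i).toFa_mul_left l0) proj hproj Φ hc hs hε
  refine ⟨⟨fun h1 => hall h1 C.Y (fun _ y => y) (fun _ => continuous_id), fun h1 J _ => ?_⟩, hall,
    fun hne hpack hM J hJ => ?_⟩
  · -- the converse
    refine (hpart f J).2 ?_
    refine Helper5.EQ.Joint.mono ?_ (Finset.subset_univ _)
    refine Helper5.EQ.equi_iff_joint.1 fun Φ hc hs => ?_
    refine Helper5.EQ.Fa.converse' Φ hc hs fun ε hε => ?_
    have h2 := h1 Φ hc hs ε hε
    simp only [Measure.map_id'] at h2
    exact h2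
  · -- pairwise different kernels
    obtain ⟨M, hM⟩ := hM
    obtain ⟨j, rfl⟩ := hJ
    refine (hpart f _).2 ?_
    have e1 : Finset.univ.filter (· ∈ {k | SameKernel H j k}) = {j} := by
      ext k
      simp only [Finset.mem_filter, Finset.mem_univ, true_and, Set.mem_ofPred_eq,
        Finset.mem_singleton]
      constructor
      · intro h2
        by_contra hk
        exact hne j k (fun h => hk h.symm) h2
      · rintro rfl l l'
        exact Iff.rfl
    rw [e1]
    have hv : H.recip j l0 ≠ 0 := hl0 j (Finset.mem_univ j)
    refine Helper5.EQ.Fa.single (s := fun i => (f i).toFa) j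
      (C.continuous j (H.recip j l0)) (hmixing j _ hv).1 (hmixing j _ hv).2
      (G := fun i => (f i).G j) (fun i => (f i).c j (H.recip j l0)) (fun i => (f i).X j)
      (fun i g => (f i).X_mul j _ g) (fun φ => ?_)
      (fun i => ((Pi.evalMonoidHom (f i).G j).comp (f i).B.subtype).coprod
        ((Pi.evalMonoidHom (f i).G j).comp (f i).φ)) (fun i => (f i).y j) M
      (fun i => hM i j) (fun i ω => ?_)
    · let P : ∀ i, @Measure ((f i).G j) ⊤ := fun i => Helper5.EQ.unif ((f i).G j)
      have hP : ∀ i, @IsProbabilityMeasure ((f i).G j) ⊤ (P i) :=
        fun i => Helper5.EQ.unif_prob ((f i).G j)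
      have h1 := @Helper5.EQ.weak_of_vague ℕ atTop (C.Y j) _ _ _ _ _ _ (C.μ j) _
        (fun i => (f i).G j) (fun _ => ⊤) P hP
        (fun i => (f i).X j) (fun i => measurable_from_top) (fun ψ hψ hψs => by
          have h2 := hpack j ψ hψ hψs
          refine (tendsto_congr fun i => ?_).2 h2
          rw [Nat.card_eq_fintype_card]
          exact Helper5.EQ.integral_unif_real (A := (f i).G j) (fun g => ψ ((f i).X j g))) φ
      refine (tendsto_congr fun i => ?_).1 h1
      exact Helper5.EQ.integral_unif (A := (f i).G j) (fun g => φ ((f i).X j g))
    · exact (f i).point_eq ω.1 ω.2 j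

end Pool.Agent.Results.MP_9177b7_ag.FamiliesOverTori
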