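import Pool.Agent.Helper5.EQ.Restrict

/-!
# Special points of products of Shimura varieties: reduction to isogenous tori

Let `(G j, X j)`, `j ∈ ι`, be finitely many Shimura data with `G j` adjoint and simple over `ℚ`, `S j` a
connected component of the Shimura variety of `(G j, X j)` of some level, all defined over a number field `F`,
and `p` a prime number at which the groups `G j` are split and the levels hyperspecial. Let `T₀ j` be
a split maximal torus of `G j` over `ℚ_p`, in good position with respect to the level, and `V j` its
lattice of cocharacters. `Y j → S j` is the cover of level `T₀ j (ℤ_p)` at `p` (a profinite cover, the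
inverse limit of components of Shimura varieties of the levels between), `μ j` is its invariant
probability measure. The lattice `V j = T₀ j (ℚ_p) / T₀ j (ℤ_p)` acts on `Y j`: `act j v` is the right
translation by `v(p) ^ N`, for a suitable `N ≥ 1` (so that components go to components). By the theorem of
Howe and Moore and strong approximation `act j v` is weakly mixing (even mixing) for `v ≠ 0`.

Let `x = (x j)` be a special point of the product of the `S j`, with tori `T j ⊆ G j` which split over
a number field in which `p` splits completely, and with good reduction at `p`. Then `T j` is conjugate to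
`T₀ j` over `ℚ_p` by an element of the level, so that the `x j` are the images of points `y j` of `Y j`
for which the multiplication by elements of `T j (ℚ_p)` becomes the right translation by elements of
`T₀ j (ℚ_p)`. The Galois group of `ℚ` acts on the cocharacters `V j` of the `T j` through a subgroup `G`
of a fixed finite group `W` (the automorphisms of the root systems), and the cocharacter `mu j` of `x j`
is in a fixed finite subset of `V j`. By the reciprocity law of Shimura there is, for all
`θ = ∑ θ g • g` in `ℤ[G]`, an element of the Galois group of the field of definition (a product of powers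
of Artin symbols at places above `p`), the translation by which acts on the Galois orbit of
`y = (y j)` by the right translation by the `(θ • mu j) (p) ^ N`. These are the data of the structure
`SpecialPoint`.

The tori with cocharacters `(T j, mu j)` and `(T k, mu k)` are isogenous if `mu j` and `mu k`
have the same annihilator in `ℤ[G]`; then `θ • mu j ↦ θ • mu k` is an isomorphism of the lattices of
cocharacters of the Mumford-Tate tori of `x j` and `x k`.

We prove, for all sequences `x i` of such special points of the product: the Galois orbits of the `x i`
are equidistributed in the product if and only if, for all sets `J` of coordinates, along the `i` for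
which `J` is an isogeny class of coordinates of `x i`, the Galois orbits of the `J`-coordinates of the
`x i` are equidistributed in the product of the factors in `J`. So the problem for products is reduced to
special points all of whose coordinates have isogenous tori. If the tori of the coordinates are pairwise
not isogenous, then it is reduced to the simple factors. Nothing is assumed about the size of the
Galois orbits or about the joint Mumford-Tate torus of the coordinates; it may be much smaller than the
product of the Mumford-Tate tori of the isogeny classes (for instance if `mu 3 = mu 1 + mu 2`).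
-/

set_option autoImplicit false

open MeasureTheory Filter Topology
open scoped ComplexConjugate BoundedContinuousFunction

namespace Pool.Agent.Results.MP_9177b7_ag.IsogenyClassesOfTori

/-- The map `b` preserves the measure `μ` and is weakly mixing (tested on bounded continuous
functions). -/
structure WeaklyMixing {Y : Type} [TopologicalSpace Y] [MeasurableSpace Y] (μ : Measure Y)
    (b : Y → Y) : Prop where
  preserves : MeasurePreserving b μ μ
  mixing : ∀ f : Y →ᵇ ℂ, Tendsto (fun k : ℕ => (∑ l ∈ Finset.range k,
    ‖∫ y, f (b^[l] y) * conj (f y) ∂μ - (∫ y, f y ∂μ) * conj (∫ y, f y ∂μ)‖) / k) atTop (𝓝 0)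

/-- The covers `Y j` of the factors, the lattices `V j` of cocharacters with their actions on the `Y j`,
the finite group `W` of automorphisms of the root systems and the finite set `M` of the tuples of
possible cocharacters of special points. -/
structure Factors (ι : Type) where
  /-- the cover of the `j`-th factor -/
  Y : ι → Type
  [top : ∀ j, TopologicalSpace (Y j)]
  [t2 : ∀ j, T2Space (Y j)]
  [loc : ∀ j, LocallyCompactSpace (Y j)]
  [sec : ∀ j, SecondCountableTopology (Y j)]
  [meas : ∀ j, MeasurableSpace (Y j)]
  [borel : ∀ j, BorelSpace (Y j)]
  /-- the invariant probability measures -/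
  μ : ∀ j, Measure (Y j)
  [prob : ∀ j, IsProbabilityMeasure (μ j)]
  /-- the cocharacters of the split maximal torus -/
  V : ι → Type
  [add : ∀ j, AddCommGroup (V j)]
  /-- the action of the cocharacters by the translations by their values at (a power of) `p` -/
  act : ∀ j, V j → Y j → Y j
  act_zero : ∀ j, act j 0 = id
  continuous : ∀ j v, Continuous (act j v)
  mixing : ∀ j v, v ≠ 0 → WeaklyMixing (μ j) (act j v)
  /-- the automorphisms of the root systems -/
  W : Type
  [group : Group W]
  [finite : Finite W]
  [smul : ∀ j, DistribMulAction W (V j)]
  /-- the possible cocharacters of special points -/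
  M : Set (∀ j, V j)
  finite_M : M.Finite

attribute [instance] Factors.top Factors.t2 Factors.loc Factors.sec Factors.meas Factors.borel
  Factors.prob Factors.add Factors.group Factors.finite Factors.smul

/-- A special point of the product, with its Galois orbit. -/
structure SpecialPoint {ι : Type} (C : Factors ι) where
  /-- the image in `W` of the Galois group of `ℚ` -/
  G : Subgroup C.W
  /-- the cocharacters of the coordinates -/
  mu : ∀ j, C.V j
  mem : mu ∈ C.M
  /-- the Galois group of the field of definition -/
  Ω : Type
  [meas : MeasurableSpace Ω]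
  /-- its Haar measure -/
  P : Measure Ω
  [prob : IsProbabilityMeasure P]
  /-- the orbit map of the `j`-th coordinate -/
  X : ∀ j, Ω → C.Y j
  measurable : ∀ j, Measurable (X j)
  /-- the translation by the Artin symbol of the element `θ` of the group ring of `G` -/
  frob : (G → ℤ) → Ω → Ω
  preserves : ∀ θ, MeasurePreserving (frob θ) P P
  reciprocity : ∀ θ j ω, X j (frob θ ω) = C.act j (∑ᶠ g : G, θ g • ((g : C.W) • mu j)) (X j ω)

attribute [instance] SpecialPoint.meas SpecialPoint.prob

variable {ι : Type} {C : Factors ι}

/-- The tori of the coordinates `j` and `k` with their cocharacters are isogenous: the cocharacters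
have the same annihilator in the group ring of the Galois group. -/
def Isogenous (x : SpecialPoint C) (j k : ι) : Prop :=
  ∀ θ : x.G → ℤ, ∑ᶠ g : x.G, θ g • ((g : C.W) • x.mu j) = 0 ↔
    ∑ᶠ g : x.G, θ g • ((g : C.W) • x.mu k) = 0

/-- `J` is an isogeny class of coordinates of `x`. -/
def IsClass (x : SpecialPoint C) (J : Set ι) : Prop := ∃ j, J = {k | Isogenous x j k}

/-- The images in `Z` of the measures `P i` under the maps `X i` tend weakly to `μ` along the filter
`F`, tested on continuous functions with compact support. -/
def Equidistributed {Z : Type} [TopologicalSpace Z] [MeasurableSpace Z] (F : Filter ℕ) (μ : Measure Z)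
    {Ω : ℕ → Type} [∀ i, MeasurableSpace (Ω i)] (P : ∀ i, Measure (Ω i)) (X : ∀ i, Ω i → Z) : Prop :=
  ∀ f : Z → ℝ, Continuous f → HasCompactSupport f →
    Tendsto (fun i => ∫ ω, f (X i ω) ∂(P i)) F (𝓝 (∫ z, f z ∂μ))

/-- The Galois orbits of the `J`-coordinates of the `x i` are equidistributed in the product of the
`Y j`, `j ∈ J`, along the `i` for which `J` is an isogeny class of coordinates of `x i`. -/
def EquidistributedClass (x : ℕ → SpecialPoint C) (J : Set ι) [Fintype J] : Prop :=
  Equidistributed (atTop ⊓ 𝓟 {i | IsClass (x i) J}) (Measure.pi fun j : J => C.μ j)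
    (fun i => (x i).P) (fun i ω (j : J) => (x i).X j ω)

theorem isogenous_symm {x : SpecialPoint C} {j k : ι} (h : Isogenous x j k) : Isogenous x k j :=
  fun θ => (h θ).symm

theorem isogenous_trans {x : SpecialPoint C} {j k l : ι} (h : Isogenous x j k)
    (h' : Isogenous x k l) : Isogenous x j l := fun θ => (h θ).trans (h' θ)

theorem setOf_eq {x : SpecialPoint C} {j k : ι} :
    {l | Isogenous x j l} = {l | Isogenous x k l} ↔ Isogenous x j k := by
  constructor
  · intro h
    have h1 : k ∈ {l | Isogenous x k l} := fun θ => Iff.rfl
    rw [← h] at h1
    exact h1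
  · intro h
    ext l
    exact ⟨fun h' => isogenous_trans (isogenous_symm h) h', fun h' => isogenous_trans h h'⟩

open scoped Classical in
/-- **Reduction to isogenous tori.** Let `x i` be any sequence of special points of the product.

1. The Galois orbits of the `x i` are equidistributed in the product of the covers `Y j` if and only
if for all sets `J` of coordinates, along the `i` for which `J` is an isogeny class of coordinates of
`x i`, the Galois orbits of the `J`-coordinates are equidistributed in the product of the `Y j`,
`j ∈ J`.

2. In this case they are equidistributed in the product of the `S j`, for all continuous maps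
`proj j : Y j → S j`.

3. If the coordinates of every `x i` are pairwise not isogenous, then the Galois orbits of the `x i`
are equidistributed in the product if and only if for every `j` the Galois orbits of the `j`-th
coordinates are equidistributed in `Y j`. -/
theorem result [Fintype ι] (x : ℕ → SpecialPoint C) :
    ((∀ J : Set ι, EquidistributedClass x J) ↔
      Equidistributed atTop (Measure.pi C.μ) (fun i => (x i).P) (fun i ω j => (x i).X j ω)) ∧
    ((∀ J : Set ι, EquidistributedClass x J) →
      ∀ (S : ι → Type) [∀ j, TopologicalSpace (S j)] [∀ j, T2Space (S j)]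
        [∀ j, LocallyCompactSpace (S j)] [∀ j, SecondCountableTopology (S j)]
        [∀ j, MeasurableSpace (S j)] [∀ j, BorelSpace (S j)] (proj : ∀ j, C.Y j → S j),
        (∀ j, Continuous (proj j)) →
        Equidistributed atTop (Measure.pi fun j => (C.μ j).map (proj j)) (fun i => (x i).P)
          (fun i ω j => proj j ((x i).X j ω))) ∧
    ((∀ i j k, j ≠ k → ¬ Isogenous (x i) j k) →
      ((∀ j, Equidistributed atTop (C.μ j) (fun i => (x i).P) (fun i => (x i).X j)) ↔
        Equidistributed atTop (Measure.pi C.μ) (fun i => (x i).P) (fun i ω j => (x i).X j ω))) := by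
  let s : ℕ → Helper5.EQ.Orb C.Y := fun i =>
    { Ω := (x i).Ω, P := (x i).P, X := (x i).X, measurable := (x i).measurable }
  -- translation
  have hfull : Equidistributed atTop (Measure.pi C.μ) (fun i => (x i).P)
      (fun i ω j => (x i).X j ω) ↔ Helper5.EQ.Joint atTop C.μ s Finset.univ :=
    Helper5.EQ.equi_iff_joint (F := atTop) (μ := C.μ) (s := s)
  have hpart : ∀ J : Set ι, EquidistributedClass x J ↔
      Helper5.EQ.Joint (atTop ⊓ 𝓟 {i | IsClass (x i) J}) C.μ s (Finset.univ.filter (· ∈ J)) :=
    fun J => (Helper5.EQ.equi_iff_joint (F := atTop ⊓ 𝓟 {i | IsClass (x i) J})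
      (μ := fun j : J => C.μ j) (s := fun i => (s i).restrict J)).trans Helper5.EQ.joint_restrict
  -- the finite set of maps
  let Θ : ∀ (G : Subgroup C.W) (m : ∀ j, C.V j) (j k : ι), (G → ℤ) := fun G m j k =>
    if hθ : ∃ θ : G → ℤ, ∑ᶠ g : G, θ g • ((g : C.W) • m j) ≠ 0 ∧
      ∑ᶠ g : G, θ g • ((g : C.W) • m k) = 0 then hθ.choose else 0
  let bmap : Subgroup C.W × C.M × ι × ι → ∀ j, C.Y j → C.Y j := fun q l =>
    C.act l (∑ᶠ g : q.1, Θ q.1 q.2.1.1 q.2.2.1 q.2.2.2 g • ((g : C.W) • q.2.1.1 l))
  have : Finite C.M := C.finite_M.to_subtype
  have hB : (Set.range bmap).Finite := Set.finite_range bmap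
  have hcont : ∀ b ∈ Set.range bmap, ∀ j, Continuous (b j) := by
    rintro _ ⟨q, rfl⟩ j
    exact C.continuous j _
  have hjoint : (∀ J : Set ι, EquidistributedClass x J) →
      Helper5.EQ.Joint atTop C.μ s Finset.univ := by
    intro h1 f
    refine Helper5.EQ.tendsto_of_parts (fun i j => {k | Isogenous (x i) j k}) fun blk => ?_
    rcases Set.eq_empty_or_nonempty {i | (fun j => {k | Isogenous (x i) j k}) = blk} with h0 | ⟨i0, hi0⟩
    · rw [h0, principal_empty, inf_bot_eq]
      exact tendsto_bot
    refine Helper5.EQ.joint_blocks (F := atTop ⊓ 𝓟 {i | (fun j => {k | Isogenous (x i) j k}) = blk})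
      blk ?_ hB hcont ?_ f
    · intro c
      by_cases hc : ∃ j, blk j = c
      · obtain ⟨j, rfl⟩ := hc
        have e1 : Finset.univ.filter (fun j' => blk j' = blk j) =
            Finset.univ.filter (fun j' => j' ∈ blk j) := by
          refine Finset.filter_congr fun j' _ => ?_
          have h2 : ∀ l, blk l = {k | Isogenous (x i0) l k} := fun l => (congrFun hi0 l).symm
          rw [h2, h2, setOf_eq]
          exact ⟨fun h => isogenous_symm h, fun h => isogenous_symm h⟩
        rw [e1]
        refine ((hpart (blk j)).1 (h1 (blk j))).filter_mono (inf_le_inf_left _ ?_)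
        rw [principal_mono]
        intro i hi
        exact ⟨j, (congrFun hi j).symm⟩
      · have e1 : Finset.univ.filter (fun j' => blk j' = c) = ∅ :=
          Finset.filter_false_of_mem fun j _ h => hc ⟨j, h⟩
        rw [e1]
        intro f
        simpa using tendsto_const_nhds
    · refine eventually_inf_principal.2 (Eventually.of_forall fun i hi c d hc hd hcd => ?_)
      rw [Finset.mem_image] at hc hd
      obtain ⟨j, -, rfl⟩ := hc
      obtain ⟨k, -, rfl⟩ := hd
      have hb : ∀ l, blk l = {k | Isogenous (x i) l k} := fun l => (congrFun hi l).symm
      have hblk : ∀ l l', blk l = blk l' ↔ Isogenous (x i) l l' := fun l l' => by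
        rw [hb, hb, setOf_eq]
      have hsep : ∀ j k : ι, (∃ θ : (x i).G → ℤ,
          ∑ᶠ g : (x i).G, θ g • ((g : C.W) • (x i).mu j) ≠ 0 ∧
          ∑ᶠ g : (x i).G, θ g • ((g : C.W) • (x i).mu k) = 0) →
          (∃ t, Helper5.EQ.Sym (s i) Finset.univ (bmap ((x i).G, ⟨(x i).mu, (x i).mem⟩, j, k)) t) ∧
          Helper5.EQ.SepBlocks C.μ (bmap ((x i).G, ⟨(x i).mu, (x i).mem⟩, j, k))
            (Finset.univ.filter (fun l => blk l = blk j))
            (Finset.univ.filter (fun l => blk l = blk k)) := by
        intro j k hθ
        have hΘ : Θ (x i).G (x i).mu j k = hθ.choose := dif_pos hθ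
        have hspec := hθ.choose_spec
        rw [← hΘ] at hspec
        refine ⟨⟨(x i).frob (Θ (x i).G (x i).mu j k), (x i).preserves _, fun l _ ω => ?_⟩,
          fun l hl => ?_, fun l hl => ?_⟩
        · exact (x i).reciprocity _ l ω
        · rw [Finset.mem_filter, hblk] at hl
          show C.act l _ = id
          rw [(hl.2 _).2 hspec.2, C.act_zero]
        · rw [Finset.mem_filter, hblk] at hl
          have h3 : ∑ᶠ g : (x i).G, Θ (x i).G (x i).mu j k g • ((g : C.W) • (x i).mu l) ≠ 0 :=
            fun h => hspec.1 ((hl.2 _).1 h)
          exact ⟨(C.mixing l _ h3).preserves, (C.mixing l _ h3).mixing⟩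
      have hne : ¬ Isogenous (x i) j k := fun h => hcd ((hblk j k).2 h)
      unfold Isogenous at hne
      push Not at hne
      obtain ⟨θ, ⟨h2, h3⟩ | ⟨h2, h3⟩⟩ := hne
      · have := hsep k j ⟨θ, h3, h2⟩
        exact ⟨_, ⟨_, rfl⟩, this.1, Or.inr this.2⟩
      · have := hsep j k ⟨θ, h2, h3⟩
        exact ⟨_, ⟨_, rfl⟩, this.1, Or.inl this.2⟩
  have hone : (∀ J : Set ι, EquidistributedClass x J) ↔
      Equidistributed atTop (Measure.pi C.μ) (fun i => (x i).P) (fun i ω j => (x i).X j ω) := by
    refine ⟨fun h1 => hfull.2 (hjoint h1), fun h1 J => (hpart J).2 ?_⟩
    exact ((hfull.1 h1).mono (Finset.subset_univ _)).filter_mono inf_le_left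
  refine ⟨hone, fun h1 S _ _ _ _ _ _ proj hproj => ?_, fun hne => ?_⟩
  · have : ∀ j, IsProbabilityMeasure ((C.μ j).map (proj j)) := fun j =>
      Measure.isProbabilityMeasure_map (hproj j).measurable.aemeasurable
    intro f hf hs
    exact Helper5.EQ.weak ((hjoint h1).map proj hproj) f hf hs
  · -- one coordinate
    have hsingle : ∀ j, Equidistributed atTop (C.μ j) (fun i => (x i).P) (fun i => (x i).X j) ↔
        Helper5.EQ.Joint atTop C.μ s {j} := by
      intro j
      constructor
      · intro h f
        have := Helper5.EQ.weak_of_vague (F := atTop) (C.μ j) (fun i => (x i).P)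
          (fun i => (x i).X j) (fun i => (x i).measurable j) h (f j)
        simpa using this
      · intro h f hf hs
        obtain ⟨K, hK⟩ := hf.bounded_above_of_compact_support hs
        let f' : C.Y j →ᵇ ℂ := BoundedContinuousFunction.ofNormedAddCommGroup
          (fun y => ((f y : ℝ) : ℂ)) (Complex.continuous_ofReal.comp hf)
          K (fun y => by rw [Complex.norm_real]; exact hK _)
        have h2 := h (Function.update (fun _ => 0) j f')
        simp only [Finset.prod_singleton, Function.update_self] at h2
        have e1 : ∀ i, ∫ ω, f' ((s i).X j ω) ∂(s i).P =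
            ((∫ ω, f ((x i).X j ω) ∂(x i).P : ℝ) : ℂ) := fun i => by
          rw [← integral_complex_ofReal]
          rfl
        have e2 : ∫ y, f' y ∂(C.μ j) = ((∫ y, f y ∂(C.μ j) : ℝ) : ℂ) := by
          rw [← integral_complex_ofReal]
          rfl
        simp only [e1] at h2
        rw [e2] at h2
        have h3 := (Complex.continuous_re.tendsto _).comp h2
        simpa [Function.comp_def] using h3
    constructor
    · intro h1
      refine hone.1 fun J => (hpart J).2 ?_
      by_cases hJ : ∃ i, IsClass (x i) J
      · obtain ⟨i, j, rfl⟩ := hJ
        have e1 : Finset.univ.filter (· ∈ {k | Isogenous (x i) j k}) = {j} := by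
          ext k
          simp only [Finset.mem_filter, Finset.mem_univ, true_and, Set.mem_ofPred_eq,
            Finset.mem_singleton]
          constructor
          · intro h2
            by_contra hk
            exact hne i j k (fun h => hk h.symm) h2
          · rintro rfl θ
            exact Iff.rfl
        rw [e1]
        exact ((hsingle j).1 (h1 j)).filter_mono inf_le_left
      · have e0 : {i | IsClass (x i) J} = ∅ :=
          Set.eq_empty_of_forall_notMem fun i hi => hJ ⟨i, hi⟩
        rw [e0, principal_empty, inf_bot_eq]
        exact fun f => tendsto_bot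
    · intro h1 j
      exact (hsingle j).2 ((hfull.1 h1).mono (Finset.subset_univ _))

end Pool.Agent.Results.MP_9177b7_ag.IsogenyClassesOfTori
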